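import Mathlib

set_option autoImplicit false

namespace Pool.Agent.Results.MP_f151b7_co.Star

open Finset

/-- The number of edges of `G` having an endpoint in `X`. -/
noncomputable def meets {V : Type} (G : SimpleGraph V) (X : Set V) : ℕ :=
  {e : Sym2 V | e ∈ G.edgeSet ∧ ∃ v ∈ e, v ∈ X}.ncard

def star (m : ℕ) : SimpleGraph (Option (Fin m)) where
  Adj u v := (u = none ∧ v ≠ none) ∨ (u ≠ none ∧ v = none)
  symm := ⟨fun _ _ h => by tauto⟩
  loopless := ⟨fun _ h => by tauto⟩

def ed {m : ℕ} (i : Fin m) : Sym2 (Option (Fin m)) := s(none, some i)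

lemma ed_inj {m : ℕ} : Function.Injective (ed (m := m)) := by
  intro i j h
  simpa [ed] using h

lemma mem_edge {m : ℕ} (e : Sym2 (Option (Fin m))) : e ∈ (star m).edgeSet ↔ ∃ i, ed i = e := by
  induction e using Sym2.ind with
  | _ u v =>
    rw [SimpleGraph.mem_edgeSet]
    cases u <;> cases v <;> simp [star, ed]

lemma card_edges (m : ℕ) : (star m).edgeSet.ncard = m := by
  have : (star m).edgeSet = Set.range ed := by ext e; exact mem_edge e
  rw [this, Set.ncard_range_of_injective ed_inj]; simp

lemma meets_eq {m k : ℕ} (c : Option (Fin m) → Fin k) (i : Fin k) (hi : c none ≠ i) :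
    meets (star m) {v | c v = i} = (univ.filter (fun j : Fin m => c (some j) = i)).card := by
  unfold meets
  rw [← Set.ncard_coe_finset, ← Set.ncard_image_of_injective _ ed_inj]
  congr 1
  ext e
  simp only [Set.mem_ofPred_eq, mem_edge, Set.mem_image, coe_filter, mem_univ, true_and]
  constructor
  · rintro ⟨⟨j, rfl⟩, v, hv, hc⟩
    refine ⟨j, ?_, rfl⟩
    rcases Sym2.mem_iff.1 hv with rfl | rfl
    · exact absurd hc hi
    · exact hc
  · rintro ⟨j, hj, rfl⟩
    exact ⟨⟨j, rfl⟩, some j, Sym2.mem_mk_right _ _, hj⟩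

/-- For every `k ≥ 3` there is a finite graph with `m ≥ C(k,2)` edges such that in every partition
of its vertices into `k` classes some class meets fewer than `2m/(2k-1)` edges. -/
theorem result (k : ℕ) (hk : 3 ≤ k) : ∃ (V : Type) (_ : Finite V) (G : SimpleGraph V),
    k.choose 2 ≤ G.edgeSet.ncard ∧ ∀ c : V → Fin k, ∃ i : Fin k,
      (meets G {v | c v = i} : ℝ) < 2 * (G.edgeSet.ncard : ℝ) / (2 * k - 1) := by
  obtain ⟨t, rfl⟩ : ∃ t, k = t + 3 := ⟨k - 3, by omega⟩
  refine ⟨Option (Fin ((t + 3) * (t + 1))), inferInstance, star _, ?_, fun c => ?_⟩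
  · rw [card_edges, Nat.choose_two_right]
    refine Nat.div_le_of_le_mul ?_
    simp only [Nat.add_succ_sub_one]
    nlinarith
  · have h1 : ∃ i ∈ univ.erase (c none),
        (univ.filter (fun j : Fin ((t + 3) * (t + 1)) => c (some j) = i)).card ≤ t + 1 := by
      by_contra hno
      push Not at hno
      have h2 := card_nsmul_le_sum (univ.erase (c none))
        (fun i => (univ.filter (fun j : Fin ((t + 3) * (t + 1)) => c (some j) = i)).card) (t + 2)
        (fun i hi => hno i hi)
      have h3 : ∑ i ∈ univ.erase (c none),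
          (univ.filter (fun j : Fin ((t + 3) * (t + 1)) => c (some j) = i)).card ≤
          ∑ i, (univ.filter (fun j : Fin ((t + 3) * (t + 1)) => c (some j) = i)).card :=
        sum_le_sum_of_subset (subset_univ _)
      rw [← card_eq_sum_card_fiberwise (fun _ _ => mem_coe.2 (mem_univ _))] at h3
      rw [card_erase_of_mem (mem_univ _)] at h2
      simp only [card_univ, Fintype.card_fin, Nat.add_succ_sub_one, smul_eq_mul] at h2 h3
      nlinarith
    obtain ⟨i, hi, hle⟩ := h1
    refine ⟨i, ?_⟩
    rw [meets_eq c i (ne_of_mem_erase hi).symm, card_edges]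
    have ht := Nat.cast_nonneg (α := ℝ) t
    have h4 : ((univ.filter (fun j : Fin ((t + 3) * (t + 1)) => c (some j) = i)).card : ℝ) ≤
      t + 1 := by exact_mod_cast hle
    rw [lt_div_iff₀ (by push_cast; linarith)]
    push_cast
    nlinarith

end Pool.Agent.Results.MP_f151b7_co.Star
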